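import Pool.Agent.Y111.RC.Tied

/-!
# Cost at most one from a chain of finitely generated subgroups
-/

set_option autoImplicit false

open MeasureTheory Filter

namespace Pool.Agent.Y111.RC

open Pool.Agent.W336.CS

variable {G : Type} [Group G]

theorem rc_subset {B S S' : Set G} {c : ENNReal} (h : RC B S c) (hS : S' ⊆ S) : RC B S' c := by
  obtain ⟨ν, h1, h2, h3, h4⟩ := h
  exact ⟨ν, h1, h2, h3, h4.mono (fun ω hω g s hs => hω g s (hS hs))⟩

/-- the chain criterion -/
theorem chain_cost [Countable G] (F : ℕ → Finset G)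
    (hs : Summable fun i => (1 : ℝ) / Nat.card (Subgroup.closure (F i : Set G)))
    (ha : ∀ i, Fol (Subgroup.closure ((F i : Set G) ∪ (F (i + 1) : Set G))))
    (hK : ∀ K : Subgroup G, (∀ᶠ i in atTop, (F i : Set G) ⊆ K) →
      (∀ g, Tied K g → g ∈ K) →
      (∀ g, (∃ᶠ i in atTop, Fol (Subgroup.closure ((F i : Set G) ∪ {g}))) → g ∈ K) → K = ⊤)
    (ε : ENNReal) (hε : 0 < ε) : CostLe G (1 + ε) := by
  classical
  set a : ℕ → ENNReal :=
    fun i => ENNReal.ofReal (1 / Nat.card (Subgroup.closure (F i : Set G))) with hadef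
  have ha_top : ∑' i, a i ≠ ⊤ := by
    rw [← ENNReal.ofReal_tsum_of_nonneg (fun i => by positivity) hs]
    exact ENNReal.ofReal_ne_top
  set η : ENNReal := ε / 4 with hη
  have hη0 : 0 < η := ENNReal.div_pos hε.ne' (by norm_num)
  have hηε : η + η + η + η ≤ ε := by
    have h4 : η + η + η + η = 4 * η := by ring
    rw [h4]
    exact ENNReal.mul_div_le
  obtain ⟨N, hN⟩ : ∃ N, ∑' i, a (i + N) ≤ η := by
    have h1 := ENNReal.tendsto_sum_nat_add a ha_top
    exact ((h1.eventually_le_const hη0)).exists
  obtain ⟨w, hw, hwη⟩ := weights ℕ hη0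
  have hFol : ∀ i, Fol (Subgroup.closure ((F i ∪ F (i + 1) : Finset G) : Set G)) := by
    intro i
    exact fol_congr (by simp) (ha i)
  have h0 : RC (∅ : Set G) (F (0 + N) : Set G) (1 + η) :=
    rc_subset (rc_start W22.CS.cnt all_fe _ (hFol (0 + N)) η hη0) (by simp)
  have h1 : ∀ i, RC (F (i + N) : Set G) (F (i + 1 + N) : Set G) (a (i + N) + w i) := by
    intro i
    have hF : Fol (Subgroup.closure ((F (i + N) : Set G) ∪ (F (i + 1 + N) : Set G))) := by
      have := ha (i + N)
      rwa [show i + N + 1 = i + 1 + N by ring] at this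
    refine RC.mono (rc_amen W22.CS.cnt all_fe _ _ hF (w i) (hw i)) (le_of_eq ?_)
    simp only [hadef]
  have hfam := Fam.seq (F := fun i => (F (i + N) : Set G)) h0 h1
  set M : Subgroup G := Subgroup.closure (⋃ i, (F (i + N) : Set G)) with hM
  have hFM : ∀ i, N ≤ i → (F i : Set G) ⊆ M := by
    intro i hi
    refine Set.Subset.trans ?_ Subgroup.subset_closure
    intro x hx
    refine Set.mem_iUnion.2 ⟨i - N, ?_⟩
    rwa [Nat.sub_add_cancel hi]
  have htop : hull M = ⊤ := by
    refine hK _ ?_ (fun g hg => tied_hull M hg) ?_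
    · filter_upwards [eventually_ge_atTop N] with i hi
      exact (hFM i hi).trans (le_hull M)
    · intro g hg δ hδ
      have h2 : Tendsto a atTop (nhds 0) :=
        ENNReal.tendsto_atTop_zero_of_tsum_ne_top ha_top
      have h3 : ∀ᶠ i in atTop, a i < δ := h2.eventually_lt_const hδ
      obtain ⟨i, hi1, hi2, hi3⟩ := (hg.and_eventually (h3.and (eventually_ge_atTop N))).exists
      have h4 : RC (F i : Set G) (({g} : Finset G) : Set G) δ :=
        rc_amen' W22.CS.cnt all_fe (F i) {g} (by rw [Finset.coe_singleton]; exact hi1) δ hi2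
      rw [Finset.coe_singleton] at h4
      exact Fam.rc h4 ((hFM i hi3).trans Subgroup.subset_closure)
  have h5 := fam_hull M hη0
  rw [htop] at h5
  have h6 := hfam.trans h5 (by
    rw [hM, SetLike.coe_subset_coe]
    exact Subgroup.closure_mono Set.subset_union_right)
  rw [Subgroup.coe_top] at h6
  refine CostLe.mono h6.cost ?_
  calc 1 + η + ∑' i, (a (i + N) + w i) + η
      = 1 + (η + (∑' i, a (i + N)) + (∑' i, w i) + η) := by
        rw [ENNReal.tsum_add]; ring
    _ ≤ 1 + (η + η + η + η) := by gcongr
    _ ≤ 1 + ε := by gcongr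

/-- generating sets with unbounded orders -/
theorem gen_cost [Countable G] (M : Subgroup G) (X : Set G) (hX : Subgroup.closure X = M)
    (h2 : ∀ a ∈ X, ∀ b ∈ X, Fol (Subgroup.closure ({a, b} : Set G)))
    (hN : ∀ N : ℕ, ∃ u ∈ X, orderOf u = 0 ∨ N < orderOf u)
    (hK : ∀ K : Subgroup G, M ≤ K → (∀ g, Tied K g → g ∈ K) → K = ⊤)
    (ε : ENNReal) (hε : 0 < ε) : CostLe G (1 + ε) := by
  classical
  choose u huX hu using fun i : ℕ => hN (2 ^ i)
  have hpair : ∀ a ∈ X, ∀ b ∈ X, Fol (Subgroup.closure
      ((({a} : Finset G) : Set G) ∪ (({b} : Finset G) : Set G))) := by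
    intro a ha b hb
    refine fol_congr ?_ (h2 a ha b hb)
    ext x; simp [or_comm]
  refine chain_cost (fun i => {u i}) ?_ (fun i => hpair _ (huX i) _ (huX (i + 1))) ?_ ε hε
  · refine Summable.of_nonneg_of_le (fun i => by positivity) (fun i => ?_)
      (summable_geometric_of_lt_one (r := (1 / 2 : ℝ)) (by norm_num) (by norm_num))
    rw [Finset.coe_singleton, ← Subgroup.zpowers_eq_closure, Nat.card_zpowers]
    rcases hu i with h | h
    · rw [h]
      simp
    · rw [one_div_pow]
      apply one_div_le_one_div_of_le (by positivity)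
      exact_mod_cast h.le
  · intro K h1 h3 h4
    refine hK K ?_ h3
    rw [← hX, Subgroup.closure_le]
    intro g hg
    refine h4 g (Eventually.frequently (Eventually.of_forall fun i => ?_))
    have := hpair _ (huX i) g hg
    rwa [Finset.coe_singleton g] at this

theorem fol_of_finite {S : Set G} (h : (Subgroup.closure S : Set G).Finite) :
    Fol (Subgroup.closure S) := by
  have : Finite (Subgroup.closure S) := h.to_subtype
  exact fol_finite _

/-- subgroups all of whose 2-generated subgroups are amenable -/
theorem amen2_cost [Countable G] (M : Subgroup G) (hM : (M : Set G).Infinite)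
    (h2 : ∀ a ∈ M, ∀ b ∈ M, Fol (Subgroup.closure ({a, b} : Set G)))
    (hK : ∀ K : Subgroup G, M ≤ K → (∀ g, Tied K g → g ∈ K) → K = ⊤)
    (ε : ENNReal) (hε : 0 < ε) : CostLe G (1 + ε) := by
  classical
  by_cases hN : ∀ N : ℕ, ∃ u ∈ M, orderOf u = 0 ∨ N < orderOf u
  · exact gen_cost M M (Subgroup.closure_eq M) h2 hN hK ε hε
  push Not at hN
  obtain ⟨N, hN⟩ := hN
  have hexp : ∀ x ∈ M, x ^ (N.factorial) = 1 := by
    intro x hx
    refine orderOf_dvd_iff_pow_eq_one.1 (Nat.dvd_factorial ?_ (hN x hx).2)
    exact Nat.pos_of_ne_zero (hN x hx).1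
  -- an infinite subgroup `L` of `M` inside `K` is enough
  have key : ∀ K L : Subgroup G, L ≤ M → (L : Set G).Infinite → L ≤ K →
      (∀ g, Tied K g → g ∈ K) → K = ⊤ := by
    intro K L hLM hL hLK hT
    refine hK K (fun g hg => hT g ?_) hT
    refine ⟨2 * N.factorial, ?_, 1, hL.mono ?_⟩
    · have := Nat.factorial_pos N
      omega
    · intro v hv
      refine ⟨hLK hv, ?_⟩
      rw [mul_comm 2, pow_mul, hexp _ (M.mul_mem (hLM hv) hg)]
      simp
  have hinf : Infinite M := Set.infinite_coe_iff.2 hM
  by_cases hF2 : Pool.Agent.W336.CS.Fin2 M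
  · -- infinite locally finite subgroup
    have hno : ¬ NoInfLF M := fun h => by
      have := all_lf M hF2 h
      exact not_finite M
    unfold NoInfLF at hno
    push Not at hno
    obtain ⟨L, hLlf, hL⟩ := hno
    have hL : (L : Set M).Infinite := hL
    obtain ⟨m, hm⟩ := exists_surjective_nat L
    have ht : ∀ i : ℕ, ∃ t : Finset M, (t : Set M) ⊆ L ∧ t.card = 2 ^ i := fun i => by
      obtain ⟨t, ht, htc⟩ := hL.exists_subset_card_eq (2 ^ i)
      exact ⟨t, ht, htc⟩
    choose t ht htc using ht
    let F' : ℕ → Finset M := fun i => t i ∪ {(m i : M)}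
    have hFL : ∀ i, (F' i : Set M) ⊆ L := by
      intro i x hx
      rw [Finset.mem_coe, Finset.mem_union, Finset.mem_singleton] at hx
      rcases hx with hx | rfl
      · exact ht i hx
      · exact (m i).2
    have hfin : ∀ s : Finset M, (s : Set M) ⊆ L →
        (Subgroup.closure ((M.subtype : M → G) '' (s : Set M)) : Set G).Finite := by
      intro s hs
      rw [← MonoidHom.map_closure, Subgroup.coe_map]
      exact (hLlf s hs).image _
    refine chain_cost (fun i => (F' i).image M.subtype) ?_ ?_ ?_ ε hε
    · refine Summable.of_nonneg_of_le (fun i => by positivity) (fun i => ?_)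
        (summable_geometric_of_lt_one (r := (1 / 2 : ℝ)) (by norm_num) (by norm_num))
      rw [one_div_pow]
      apply one_div_le_one_div_of_le (by positivity)
      have h1 : (2 : ℕ) ^ i ≤
          Nat.card (Subgroup.closure (((F' i).image M.subtype : Finset G) : Set G)) := by
        have hf : (Subgroup.closure (((F' i).image M.subtype : Finset G) : Set G) :
            Set G).Finite := by
          rw [Finset.coe_image]
          exact hfin _ (hFL i)
        rw [← htc i, ← Finset.card_image_of_injective (t i) M.subtype_injective,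
          ← Set.ncard_coe_finset]
        refine Set.ncard_le_ncard (fun x hx => Subgroup.subset_closure ?_) hf
        rw [Finset.mem_coe, Finset.mem_image] at hx ⊢
        obtain ⟨y, hy, rfl⟩ := hx
        exact ⟨y, Finset.mem_union_left _ hy, rfl⟩
      exact_mod_cast h1
    · intro i
      have h1 := hfin (F' i ∪ F' (i + 1)) (by
        rw [Finset.coe_union]
        exact Set.union_subset (hFL i) (hFL _))
      refine fol_congr ?_ (fol_of_finite h1)
      rw [Finset.coe_image, Finset.coe_image, Finset.coe_union, Set.image_union]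
    · intro K h1 h3 h4
      refine key K (L.map M.subtype) ?_ ?_ ?_ h3
      · rintro x ⟨y, _, rfl⟩
        exact y.2
      · rw [Subgroup.coe_map]
        exact hL.image M.subtype_injective.injOn
      · rintro x ⟨y, hy, rfl⟩
        refine h4 _ (Eventually.frequently (Eventually.of_forall fun i => ?_))
        have h5 := hfin (F' i ∪ {y}) (by
          rw [Finset.coe_union, Finset.coe_singleton]
          exact Set.union_subset (hFL i) (by rintro _ rfl; exact hy))
        refine fol_congr ?_ (fol_of_finite h5)
        rw [Finset.coe_image, Finset.coe_union, Set.image_union, Finset.coe_singleton,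
          Set.image_singleton]
  · -- infinite amenable 2-generated subgroup
    unfold Pool.Agent.W336.CS.Fin2 at hF2
    push Not at hF2
    obtain ⟨a, b, hab⟩ := hF2
    have hab : (Subgroup.closure ({a, b} : Set M) : Set M).Infinite := hab
    have hL : (Subgroup.closure ({(a : G), (b : G)} : Set G) : Set G).Infinite := by
      have h1 : Subgroup.closure ({(a : G), (b : G)} : Set G) =
          (Subgroup.closure ({a, b} : Set M)).map M.subtype := by
        rw [MonoidHom.map_closure, Set.image_pair]
        rfl
      rw [h1, Subgroup.coe_map]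
      exact hab.image M.subtype_injective.injOn
    have hcoe : (({(a : G), (b : G)} : Finset G) : Set G) = {(a : G), (b : G)} := by simp
    refine chain_cost (fun _ => {(a : G), (b : G)}) ?_ ?_ ?_ ε hε
    · have : Nat.card (Subgroup.closure ({(a : G), (b : G)} : Set G)) = 0 := by
        have : Infinite (Subgroup.closure ({(a : G), (b : G)} : Set G)) :=
          Set.infinite_coe_iff.2 hL
        exact Nat.card_eq_zero_of_infinite
      rw [hcoe, this]
      simpa using summable_zero
    · intro i
      refine fol_congr ?_ (h2 a a.2 b b.2)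
      rw [hcoe, Set.union_self]
    · intro K h1 h3 _
      obtain ⟨i, hi⟩ := h1.exists
      refine key K _ ?_ hL ?_ h3
      · rw [Subgroup.closure_le]
        rintro x (rfl | rfl)
        · exact a.2
        · exact b.2
      · rw [Subgroup.closure_le]
        rwa [hcoe] at hi

end Pool.Agent.Y111.RC
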