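import Pool.Agent.W336.CS.All

/-!
# Families of relative cost bounds

`Fam H K c`: the labels in `K` can be connected over the labels in `H` by a countable well-founded
family of invariant random configurations of total cost at most `c`.
-/

set_option autoImplicit false

open MeasureTheory

namespace Pool.Agent.Y111.RC

open Pool.Agent.W336.CS

variable {G : Type} [Group G]

/-- relative cost bound with a well-founded countable family of configurations -/
def Fam (H K : Set G) (c : ENNReal) : Prop :=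
  ∃ (ι : Type) (_ : Countable ι) (r : ι → ι → Prop) (_ : WellFounded r) (B S : ι → Set G)
    (w : ι → ENNReal), (∀ i, RC (B i) (S i) (w i)) ∧
    (∀ i, B i ⊆ Subgroup.closure (H ∪ ⋃ j, ⋃ (_ : r j i), S j)) ∧
    K ⊆ Subgroup.closure (H ∪ ⋃ j, S j) ∧ ∑' i, w i ≤ c

theorem Fam.mono {H K : Set G} {c c' : ENNReal} (h : Fam H K c) (hc : c ≤ c') : Fam H K c' := by
  obtain ⟨ι, h0, r, hr, B, S, w, h1, h2, h3, h4⟩ := h
  exact ⟨ι, h0, r, hr, B, S, w, h1, h2, h3, h4.trans hc⟩

theorem Fam.gen {H K K' : Set G} {c : ENNReal} (h : Fam H K c)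
    (hK : K' ⊆ Subgroup.closure (H ∪ K)) : Fam H K' c := by
  obtain ⟨ι, h0, r, hr, B, S, w, h1, h2, h3, h4⟩ := h
  refine ⟨ι, h0, r, hr, B, S, w, h1, h2, ?_, h4⟩
  refine hK.trans ?_
  rw [SetLike.coe_subset_coe, Subgroup.closure_le]
  exact Set.union_subset (Set.subset_union_left.trans Subgroup.subset_closure) h3

theorem Fam.zero {H K : Set G} (h : K ⊆ Subgroup.closure H) : Fam H K 0 := by
  refine ⟨Empty, inferInstance, fun _ _ => False, ⟨fun a => a.elim⟩, fun i => i.elim,
    fun i => i.elim, fun i => i.elim, fun i => i.elim, fun i => i.elim, ?_, by simp⟩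
  refine h.trans ?_
  rw [SetLike.coe_subset_coe]
  exact Subgroup.closure_mono Set.subset_union_left

theorem Fam.rc {H B S : Set G} {c : ENNReal} (h : RC B S c) (hB : B ⊆ Subgroup.closure H) :
    Fam H S c := by
  refine ⟨Unit, inferInstance, fun _ _ => False, ⟨fun a => ⟨a, fun _ h => h.elim⟩⟩, fun _ => B,
    fun _ => S, fun _ => c, fun _ => h, fun _ => ?_, ?_, by simp⟩
  · refine hB.trans ?_
    rw [SetLike.coe_subset_coe]
    exact Subgroup.closure_mono Set.subset_union_left
  · refine Set.Subset.trans ?_ Subgroup.subset_closure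
    intro x hx
    exact Or.inr (Set.mem_iUnion.2 ⟨(), hx⟩)

theorem Fam.trans {H H' K L : Set G} {a b : ENNReal} (h : Fam H K a) (h' : Fam H' L b)
    (hH : H' ⊆ Subgroup.closure (H ∪ K)) : Fam H L (a + b) := by
  obtain ⟨ι, h0, r, hr, B, S, w, h1, h2, h3, h4⟩ := h
  obtain ⟨ι', h0', r', hr', B', S', w', h1', h2', h3', h4'⟩ := h'
  have hHH : (Subgroup.closure (H ∪ K) : Set G) ⊆ Subgroup.closure (H ∪ ⋃ j, S j) := by
    rw [SetLike.coe_subset_coe, Subgroup.closure_le]
    exact Set.union_subset (Set.subset_union_left.trans Subgroup.subset_closure) h3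
  have hH' := hH.trans hHH
  refine ⟨ι ⊕ ι', inferInstance, Sum.Lex r r', Sum.lex_wf hr hr', Sum.elim B B', Sum.elim S S',
    Sum.elim w w', ?_, ?_, ?_, ?_⟩
  · rintro (i | i)
    · exact h1 i
    · exact h1' i
  · rintro (i | i)
    · refine (h2 i).trans ?_
      rw [SetLike.coe_subset_coe]
      refine Subgroup.closure_mono (Set.union_subset_union_right _ ?_)
      intro x hx
      simp only [Set.mem_iUnion] at hx ⊢
      obtain ⟨j, hj, hx⟩ := hx
      exact ⟨Sum.inl j, Sum.Lex.inl hj, hx⟩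
    · refine (h2' i).trans ?_
      rw [SetLike.coe_subset_coe, Subgroup.closure_le]
      refine Set.union_subset (hH'.trans ?_) ?_
      · rw [SetLike.coe_subset_coe]
        refine Subgroup.closure_mono (Set.union_subset_union_right _ ?_)
        intro x hx
        simp only [Set.mem_iUnion] at hx ⊢
        obtain ⟨j, hx⟩ := hx
        exact ⟨Sum.inl j, Sum.Lex.sep _ _, hx⟩
      · refine Set.Subset.trans ?_ Subgroup.subset_closure
        intro x hx
        simp only [Set.mem_iUnion] at hx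
        obtain ⟨j, hj, hx⟩ := hx
        refine Or.inr ?_
        simp only [Set.mem_iUnion]
        exact ⟨Sum.inr j, Sum.Lex.inr hj, hx⟩
  · refine h3'.trans ?_
    rw [SetLike.coe_subset_coe, Subgroup.closure_le]
    refine Set.union_subset (hH'.trans ?_) ?_
    · rw [SetLike.coe_subset_coe]
      refine Subgroup.closure_mono (Set.union_subset_union_right _ ?_)
      intro x hx
      simp only [Set.mem_iUnion] at hx ⊢
      obtain ⟨j, hx⟩ := hx
      exact ⟨Sum.inl j, hx⟩
    · refine Set.Subset.trans ?_ Subgroup.subset_closure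
      intro x hx
      simp only [Set.mem_iUnion] at hx
      obtain ⟨j, hx⟩ := hx
      refine Or.inr ?_
      simp only [Set.mem_iUnion]
      exact ⟨Sum.inr j, hx⟩
  · rw [ENNReal.summable.tsum_sum ENNReal.summable]
    exact add_le_add h4 h4'

theorem wf_sigma {κ : Type} {ι : κ → Type} (r : ∀ k, ι k → ι k → Prop)
    (h : ∀ k, WellFounded (r k)) :
    WellFounded (fun a b : Σ k, ι k => ∃ e : a.1 = b.1, r b.1 (e ▸ a.2) b.2) := by
  constructor
  rintro ⟨k, i⟩
  induction i using (h k).induction with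
  | _ i ih =>
    constructor
    rintro ⟨k', i'⟩ ⟨e, hr⟩
    dsimp only at e hr
    subst e
    exact ih i' hr

theorem Fam.iUnion {κ : Type} [Countable κ] {H : Set G} {K : κ → Set G} {c : κ → ENNReal}
    (h : ∀ k, Fam H (K k) (c k)) : Fam H (⋃ k, K k) (∑' k, c k) := by
  choose ι h0 r hr B S w h1 h2 h3 h4 using h
  refine ⟨Σ k, ι k, inferInstance, _, wf_sigma r hr, fun a => B a.1 a.2, fun a => S a.1 a.2,
    fun a => w a.1 a.2, fun a => h1 _ _, ?_, ?_, ?_⟩
  · rintro ⟨k, i⟩
    refine (h2 k i).trans ?_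
    rw [SetLike.coe_subset_coe]
    refine Subgroup.closure_mono (Set.union_subset_union_right _ ?_)
    intro x hx
    simp only [Set.mem_iUnion] at hx ⊢
    obtain ⟨j, hj, hx⟩ := hx
    exact ⟨⟨k, j⟩, ⟨rfl, hj⟩, hx⟩
  · refine Set.iUnion_subset (fun k => (h3 k).trans ?_)
    rw [SetLike.coe_subset_coe]
    refine Subgroup.closure_mono (Set.union_subset_union_right _ ?_)
    intro x hx
    simp only [Set.mem_iUnion] at hx ⊢
    obtain ⟨j, hx⟩ := hx
    exact ⟨⟨k, j⟩, hx⟩
  · rw [ENNReal.tsum_sigma (fun k i => w k i)]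
    exact ENNReal.tsum_le_tsum h4

/-- a sequence, each member connected over the preceding one -/
theorem Fam.seq {F : ℕ → Set G} {a : ENNReal} {w : ℕ → ENNReal} (h0 : RC ∅ (F 0) a)
    (h : ∀ i, RC (F i) (F (i + 1)) (w i)) : Fam ∅ (⋃ i, F i) (a + ∑' i, w i) := by
  have h' : Fam (F 0) (⋃ i, F i) (∑' i, w i) := by
    refine ⟨ℕ, inferInstance, fun i j => i < j, Nat.lt_wfRel.wf, F, fun i => F (i + 1), w, h,
      ?_, ?_, le_rfl⟩
    · intro i
      refine Set.Subset.trans ?_ Subgroup.subset_closure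
      intro x hx
      rcases i with _ | i
      · exact Or.inl hx
      · refine Or.inr ?_
        simp only [Set.mem_iUnion]
        exact ⟨i, Nat.lt_succ_self i, hx⟩
    · refine Set.Subset.trans ?_ Subgroup.subset_closure
      refine Set.iUnion_subset (fun i x hx => ?_)
      rcases i with _ | i
      · exact Or.inl hx
      · exact Or.inr (Set.mem_iUnion.2 ⟨i, hx⟩)
  exact (Fam.rc h0 (Set.empty_subset _)).trans h'
    (Set.subset_union_right.trans Subgroup.subset_closure)

theorem Fam.cost [Countable G] {c : ENNReal} (h : Fam (∅ : Set G) Set.univ c) : CostLe G c := by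
  obtain ⟨ι, h0, r, hr, B, S, w, h1, h2, h3, h4⟩ := h
  obtain ⟨e⟩ : Nonempty (ι ⊕ ℕ ≃ ℕ) := by
    obtain ⟨d⟩ := nonempty_denumerable (ι ⊕ ℕ)
    exact ⟨Denumerable.eqv _⟩
  refine CostLe.mono (chain W401.CS.real e (Sum.Lex r (fun a b : ℕ => a < b))
    (Sum.lex_wf hr Nat.lt_wfRel.wf) (Sum.elim B fun _ => ∅) (Sum.elim S fun _ => ∅)
    (Sum.elim w fun _ => 0) ?_ ?_ ?_) ?_
  · rintro (i | i)
    · exact h1 i
    · exact RC.empty _ _
  · rintro (i | i) u hu
    · have := h2 i hu
      refine Subgroup.closure_mono ?_ this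
      intro x hx
      rw [Set.empty_union] at hx
      simp only [Set.mem_iUnion] at hx ⊢
      obtain ⟨j, hj, hx⟩ := hx
      exact ⟨Sum.inl j, Sum.Lex.inl hj, hx⟩
    · exact absurd hu (by simp)
  · rw [eq_top_iff]
    intro g _
    refine Subgroup.closure_mono ?_ (h3 (Set.mem_univ g))
    intro x hx
    rw [Set.empty_union] at hx
    simp only [Set.mem_iUnion] at hx ⊢
    obtain ⟨j, hx⟩ := hx
    exact ⟨Sum.inl j, hx⟩
  · rw [ENNReal.summable.tsum_sum ENNReal.summable]
    simpa using h4

end Pool.Agent.Y111.RC
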