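import Pool.Agent.Y111.RC.Fam

/-!
# Elements tied to a subgroup

`g` is tied to the subgroup `M` if, for some `n ≥ 2`, one coset `M d` contains `(u g) ^ n` for
infinitely many `u ∈ M`.  For infinitely many `u` the edge `(1, g)` then has disjoint detours of
bounded length, so that `g` can be connected over `M` at arbitrarily small cost.
-/

set_option autoImplicit false

open MeasureTheory

namespace Pool.Agent.Y111.RC

open Pool.Agent.W336.CS

variable {G : Type} [Group G]

/-- For some `n ≥ 2`, one coset `M d` contains `(u g) ^ n` for infinitely many `u ∈ M`. -/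
def Tied (M : Subgroup G) (g : G) : Prop :=
  ∃ n : ℕ, 2 ≤ n ∧ ∃ d : G, {u : G | u ∈ M ∧ (u * g) ^ n * d⁻¹ ∈ M}.Infinite

theorem detour_conn (M : Subgroup G) (g : G) (ω : Cfg G) {i : ℕ} (hi : 2 ≤ i)
    {u v : G} (hu : u ∈ M) (hv : v ∈ M) (huv : (v * g) ^ i * ((u * g) ^ i)⁻¹ ∈ M)
    (h1 : ∀ j, 1 ≤ j → j ≤ i - 2 → ω ((u * g) ^ j, g) = true)
    (h2 : ∀ j, 1 ≤ j → j ≤ i - 1 → ω ((v * g) ^ j * (u * g)⁻¹, g) = true) :
    Conn (M : Set G) ω 1 g := by
  have hM : ∀ m ∈ M, ∀ a, Conn (M : Set G) ω a (m * a) := fun m hm a =>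
    Relation.EqvGen.rel _ _ (Or.inl ⟨m, hm, rfl⟩)
  have hE : ∀ a, ω (a, g) = true → Conn (M : Set G) ω a (g * a) := fun a ha =>
    Relation.EqvGen.rel _ _ (Or.inr ⟨g, ha, rfl⟩)
  set y := (u * g)⁻¹ with hy
  have hA : ∀ j, 1 ≤ j → j ≤ i → Conn (M : Set G) ω (v * g * y) ((v * g) ^ j * y) := by
    intro j hj
    induction j, hj using Nat.le_induction with
    | base => intro _; rw [pow_one]; exact Relation.EqvGen.refl _
    | succ j hj ih =>
      intro hji
      refine Relation.EqvGen.trans _ _ _ (ih (by omega)) ?_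
      refine Relation.EqvGen.trans _ _ _ (hE _ (h2 j hj (by omega))) ?_
      have := hM v hv (g * ((v * g) ^ j * y))
      have e : v * (g * ((v * g) ^ j * y)) = (v * g) ^ (j + 1) * y := by
        rw [pow_succ']
        group
      rwa [e] at this
  have hB : ∀ j, 1 ≤ j → j ≤ i - 1 → Conn (M : Set G) ω (u * g) ((u * g) ^ j) := by
    intro j hj
    induction j, hj using Nat.le_induction with
    | base => intro _; rw [pow_one]; exact Relation.EqvGen.refl _
    | succ j hj ih =>
      intro hji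
      refine Relation.EqvGen.trans _ _ _ (ih (by omega)) ?_
      refine Relation.EqvGen.trans _ _ _ (hE _ (h1 j hj (by omega))) ?_
      have := hM u hu (g * (u * g) ^ j)
      have e : u * (g * (u * g) ^ j) = (u * g) ^ (j + 1) := by
        rw [pow_succ']
        group
      rwa [e] at this
  have c1 : Conn (M : Set G) ω (g * y) 1 := by
    have := hM u hu (g * y)
    have e : u * (g * y) = 1 := by
      rw [hy]
      group
    rwa [e] at this
  have c2 : Conn (M : Set G) ω (g * y) (v * g * y) := by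
    have := hM v hv (g * y)
    rwa [← mul_assoc] at this
  have c3 := hA i (by omega) le_rfl
  have c35 : Conn (M : Set G) ω ((u * g) ^ (i - 1)) ((v * g) ^ i * y) := by
    have := hM _ huv ((u * g) ^ (i - 1))
    have e3 : (v * g) ^ i * ((u * g) ^ i)⁻¹ * (u * g) ^ (i - 1) = (v * g) ^ i * y := by
      have h : (u * g) ^ i = (u * g) ^ (i - 1) * (u * g) := by
        rw [← pow_succ]
        congr 1
        omega
      rw [h, hy]
      group
    rwa [e3] at this
  have c4 := hB (i - 1) (by omega) le_rfl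
  have c5 := hM u hu g
  exact c1.symm.trans (c2.trans (c3.trans (c35.symm.trans (c4.symm.trans c5.symm))))

/-- infinitely many disjoint bounded detours for a tied element -/
theorem detour (M : Subgroup G) (g : G) (hg : Tied M g) :
    ∃ (n : ℕ) (Z : ℕ → Finset (G × G)), (∀ i j, i ≠ j → Disjoint (Z i) (Z j)) ∧
      (∀ i, (Z i).card ≤ 2 * n) ∧ (∀ i, ∀ e ∈ Z i, e.2 = g) ∧
      ∀ i, ∀ ω : Cfg G, (∀ e ∈ Z i, ω e = true) → Conn (M : Set G) ω 1 g := by
  classical
  have hex : ∃ i, 2 ≤ i ∧ ∃ d : G, {u : G | u ∈ M ∧ (u * g) ^ i * d⁻¹ ∈ M}.Infinite := hg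
  obtain ⟨hi2, d, hU⟩ := Nat.find_spec hex
  set i := Nat.find hex with hi
  have hfin : ∀ j, 1 ≤ j → j < i → ∀ z, {u : G | u ∈ M ∧ (u * g) ^ j = z}.Finite := by
    intro j h1 hj z
    rcases Nat.lt_or_ge 1 j with h2 | h2
    · by_contra hc
      refine Nat.find_min hex hj ⟨h2, z, Set.Infinite.mono ?_ hc⟩
      rintro u ⟨hu, hz⟩
      refine ⟨hu, ?_⟩
      rw [hz, mul_inv_cancel]
      exact M.one_mem
    · obtain rfl : j = 1 := by omega
      apply Set.Subsingleton.finite
      rintro u ⟨_, hu⟩ v ⟨_, hv⟩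
      rw [pow_one] at hu hv
      exact mul_right_cancel (hu.trans hv.symm)
  have hmain : ∀ F : Finset (G × G), ∃ Z : Finset (G × G), (Z.card ≤ 2 * i ∧ (∀ e ∈ Z, e.2 = g) ∧
      ∀ ω : Cfg G, (∀ e ∈ Z, ω e = true) → Conn (M : Set G) ω 1 g) ∧ Disjoint Z F := by
    intro F
    set F1 := F.image Prod.fst with hF1
    have hb1 : (⋃ j ∈ Finset.Icc 1 (i - 2), ⋃ z ∈ F1, {u : G | u ∈ M ∧ (u * g) ^ j = z}).Finite := by
      apply Set.Finite.biUnion (Finset.finite_toSet _)
      intro j hj
      rw [Finset.mem_coe, Finset.mem_Icc] at hj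
      apply Set.Finite.biUnion (Finset.finite_toSet _)
      intro z _
      exact hfin j hj.1 (by omega) z
    obtain ⟨u, ⟨huM, hud⟩, hu⟩ := (hU.sdiff hb1).nonempty
    have hb2 : (⋃ j ∈ Finset.Icc 1 (i - 1), ⋃ z ∈ F1,
        {v : G | v ∈ M ∧ (v * g) ^ j = z * (u * g)}).Finite := by
      apply Set.Finite.biUnion (Finset.finite_toSet _)
      intro j hj
      rw [Finset.mem_coe, Finset.mem_Icc] at hj
      apply Set.Finite.biUnion (Finset.finite_toSet _)
      intro z _
      exact hfin j hj.1 (by omega) _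
    obtain ⟨v, ⟨hvM, hvd⟩, hv⟩ := (hU.sdiff hb2).nonempty
    refine ⟨(Finset.Icc 1 (i - 2)).image (fun j => ((u * g) ^ j, g)) ∪
      (Finset.Icc 1 (i - 1)).image (fun j => ((v * g) ^ j * (u * g)⁻¹, g)), ⟨?_, ?_, ?_⟩, ?_⟩
    · refine (Finset.card_union_le _ _).trans ?_
      have a1 := Finset.card_image_le (s := Finset.Icc 1 (i - 2)) (f := fun j => ((u * g) ^ j, g))
      have a2 := Finset.card_image_le (s := Finset.Icc 1 (i - 1))
        (f := fun j => ((v * g) ^ j * (u * g)⁻¹, g))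
      rw [Nat.card_Icc] at a1 a2
      omega
    · intro e he
      rw [Finset.mem_union, Finset.mem_image, Finset.mem_image] at he
      rcases he with ⟨j, _, rfl⟩ | ⟨j, _, rfl⟩ <;> rfl
    · intro ω hω
      have huv : (v * g) ^ i * ((u * g) ^ i)⁻¹ ∈ M := by
        have := M.mul_mem hvd (M.inv_mem hud)
        have e : (v * g) ^ i * d⁻¹ * ((u * g) ^ i * d⁻¹)⁻¹ = (v * g) ^ i * ((u * g) ^ i)⁻¹ := by
          group
        rwa [e] at this
      apply detour_conn M g ω hi2 huM hvM huv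
      · intro j h1 h2
        apply hω
        rw [Finset.mem_union, Finset.mem_image]
        exact Or.inl ⟨j, Finset.mem_Icc.2 ⟨h1, h2⟩, rfl⟩
      · intro j h1 h2
        apply hω
        rw [Finset.mem_union, Finset.mem_image, Finset.mem_image]
        exact Or.inr ⟨j, Finset.mem_Icc.2 ⟨h1, h2⟩, rfl⟩
    · rw [Finset.disjoint_left]
      intro e he heF
      have he1 : e.1 ∈ F1 := Finset.mem_image_of_mem _ heF
      rw [Finset.mem_union, Finset.mem_image, Finset.mem_image] at he
      rcases he with ⟨j, hj, rfl⟩ | ⟨j, hj, rfl⟩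
      · apply hu
        simp only [Set.mem_iUnion, Set.mem_ofPred_eq]
        exact ⟨j, hj, _, he1, huM, rfl⟩
      · apply hv
        simp only [Set.mem_iUnion, Set.mem_ofPred_eq]
        refine ⟨j, hj, _, he1, hvM, ?_⟩
        dsimp only
        rw [inv_mul_cancel_right]
  obtain ⟨Z, hZ1, hZ2⟩ := exists_seq_of_forall_finset_exists'
    (fun Z : Finset (G × G) => Z.card ≤ 2 * i ∧ (∀ e ∈ Z, e.2 = g) ∧
      ∀ ω : Cfg G, (∀ e ∈ Z, ω e = true) → Conn (M : Set G) ω 1 g) (fun A B => Disjoint A B) (by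
      intro s _
      obtain ⟨Z, hZ, hd⟩ := hmain (s.biUnion id)
      refine ⟨Z, hZ, fun x hx => ?_⟩
      exact (Finset.disjoint_of_subset_right (Finset.subset_biUnion_of_mem id hx) hd).symm)
  refine ⟨i, Z, ?_, fun i => (hZ1 i).1, fun i => (hZ1 i).2.1, fun i => (hZ1 i).2.2⟩
  intro i j hij
  exact hZ2 hij

/-- a tied element can be connected over the subgroup at arbitrarily small cost -/
theorem rc_tied [Countable G] {M : Subgroup G} {g : G} (hg : Tied M g) {ε : ENNReal} (hε : 0 < ε) :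
    RC (M : Set G) {g} ε := by
  obtain ⟨p, hp0, hp1, hpε⟩ : ∃ p : ℝ, 0 < p ∧ p ≤ 1 ∧ ENNReal.ofReal p ≤ ε := by
    rcases eq_or_ne ε ⊤ with rfl | hεt
    · exact ⟨1, one_pos, le_rfl, le_top⟩
    · have hε' : 0 < ε.toReal := ENNReal.toReal_pos hε.ne' hεt
      exact ⟨min 1 ε.toReal, lt_min one_pos hε', min_le_left _ _,
        (ENNReal.ofReal_le_ofReal (min_le_right _ _)).trans (ENNReal.ofReal_toReal hεt).le⟩
  refine RC.mono (rc_of_perc W401.CS.percInv W401.CS.resample (M : Set G) g ⟨p, hp0.le, hp1⟩ ?_) hpε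
  obtain ⟨n, Z, hZ1, hZ2, hZ3, hZ4⟩ := detour M g hg
  have := W401.CS.open_ae G (pOne g ⟨p, hp0.le, hp1⟩) g (by rw [pOne_self]; exact hp0) (2 * n) Z
    hZ1 hZ2 hZ3
  filter_upwards [this] with ω hω
  obtain ⟨i, hi⟩ := hω
  exact hZ4 i ω hi

/-- the elements which can be connected over `H` at arbitrarily small cost -/
def hull (H : Subgroup G) : Subgroup G where
  carrier := {g | ∀ ε : ENNReal, 0 < ε → Fam (H : Set G) {g} ε}
  one_mem' := fun ε hε => (Fam.zero (by simp)).mono hε.le
  mul_mem' := by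
    intro a b ha hb ε hε
    have hε2 : 0 < ε / 2 := ENNReal.half_pos hε.ne'
    have h := (ha _ hε2).trans (hb _ hε2) (H' := (H : Set G))
      (Set.subset_union_left.trans Subgroup.subset_closure)
    have h1 : Fam (H : Set G) (⋃ k : Bool, ({cond k a b} : Set G))
        (∑' _ : Bool, ε / 2) := Fam.iUnion (fun k => by
      cases k
      · exact hb _ hε2
      · exact ha _ hε2)
    rw [tsum_bool, ENNReal.add_halves] at h1
    refine h1.gen ?_
    rintro x rfl
    refine mul_mem (Subgroup.subset_closure (Or.inr ?_)) (Subgroup.subset_closure (Or.inr ?_))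
    · exact Set.mem_iUnion.2 ⟨true, rfl⟩
    · exact Set.mem_iUnion.2 ⟨false, rfl⟩
  inv_mem' := by
    intro a ha ε hε
    refine (ha ε hε).gen ?_
    rintro x rfl
    exact inv_mem (Subgroup.subset_closure (Or.inr rfl))

theorem le_hull (H : Subgroup G) : H ≤ hull H := fun g hg ε hε =>
  (Fam.zero (by rintro x rfl; exact Subgroup.subset_closure hg)).mono hε.le

theorem fam_hull [Countable G] (H : Subgroup G) {ε : ENNReal} (hε : 0 < ε) :
    Fam (H : Set G) (hull H : Set G) ε := by
  obtain ⟨w, hw, hwε⟩ := weights (hull H) hε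
  have h := Fam.iUnion (H := (H : Set G)) (K := fun k : hull H => ({(k : G)} : Set G))
    (c := w) (fun k => k.2 _ (hw k))
  refine (h.mono hwε).gen ?_
  intro x hx
  exact Subgroup.subset_closure (Or.inr (Set.mem_iUnion.2 ⟨⟨x, hx⟩, rfl⟩))

theorem tied_hull [Countable G] (H : Subgroup G) {g : G} (hg : Tied (hull H) g) : g ∈ hull H := by
  intro ε hε
  have hε2 : 0 < ε / 2 := ENNReal.half_pos hε.ne'
  have h := (fam_hull H hε2).trans (Fam.rc (rc_tied hg hε2) Subgroup.subset_closure)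
    (Set.subset_union_right.trans Subgroup.subset_closure)
  rwa [ENNReal.add_halves] at h

end Pool.Agent.Y111.RC
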